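import Pool.Agent.H29.GW.DUR

/-! # The class is closed under duality (module DUG) -/

set_option autoImplicit false

namespace Pool.Agent.H29.GW

open Pool.Agent.H55.GW

theorem isMinor_dual {N M : Matroid ℕ} (h : N.IsMinor M) : N.dual.IsMinor M.dual := by
  obtain ⟨C, D, hC, hD, hd, rfl⟩ := h.exists_eq_contract_delete_disjoint
  rw [Matroid.dual_contract_delete]
  refine ⟨D, C, ?_⟩
  have : (M.dual.delete C).contract D = (M.dual.contract D).delete C := by
    exact (Matroid.contract_delete_comm M.dual hd.symm).symm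
  exact this

theorem unif_isBase {N : Matroid ℕ} {n r : ℕ} (hn : N.E.ncard = n) (h0 : n ≠ 0) (hr : r ≤ n)
    (h : ∀ I : Set ℕ, N.Indep I ↔ (I ⊆ N.E ∧ I.ncard ≤ r)) (B : Set ℕ) :
    N.IsBase B ↔ (B ⊆ N.E ∧ B.ncard = r) := by
  have hfin : N.E.Finite := Set.finite_of_ncard_ne_zero (by rw [hn]; exact h0)
  constructor
  · intro hB
    refine ⟨hB.subset_ground, ?_⟩
    have h1 := (h B).1 hB.indep
    apply le_antisymm h1.2
    by_contra hlt
    push Not at hlt
    have h2 : B ⊂ N.E := by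
      refine ⟨h1.1, fun h3 => ?_⟩
      have := Set.ncard_le_ncard h3 (hfin.subset h1.1)
      omega
    obtain ⟨x, hx, hxB⟩ := Set.exists_of_ssubset h2
    have h4 : N.Indep (insert x B) := by
      refine (h _).2 ⟨Set.insert_subset hx h1.1, ?_⟩
      rw [Set.ncard_insert_of_notMem hxB (hfin.subset h1.1)]
      omega
    have := hB.eq_of_subset_indep h4 (Set.subset_insert x B)
    exact hxB (this ▸ Set.mem_insert x B)
  · rintro ⟨h1, h2⟩
    have hI : N.Indep B := (h B).2 ⟨h1, h2.le⟩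
    obtain ⟨B', hB', hBB'⟩ := hI.exists_isBase_superset
    have h3 := (h B').1 hB'.indep
    have h4 : B = B' := Set.eq_of_subset_of_ncard_le hBB' (by omega) (hfin.subset h3.1)
    rw [h4]
    exact hB'

theorem unif_dual {N : Matroid ℕ} {n r : ℕ} (hn : N.E.ncard = n) (h0 : n ≠ 0) (hr : r ≤ n)
    (h : ∀ I : Set ℕ, N.Indep I ↔ (I ⊆ N.E ∧ I.ncard ≤ r)) (I : Set ℕ) :
    N.dual.Indep I ↔ (I ⊆ N.dual.E ∧ I.ncard ≤ n - r) := by
  have hfin : N.E.Finite := Set.finite_of_ncard_ne_zero (by rw [hn]; exact h0)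
  rw [Matroid.dual_ground, Matroid.dual_indep_iff_exists']
  constructor
  · rintro ⟨h1, B, hB, hd⟩
    refine ⟨h1, ?_⟩
    have h2 := (unif_isBase hn h0 hr h B).1 hB
    have h3 : I ∪ B ⊆ N.E := Set.union_subset h1 h2.1
    have h4 := Set.ncard_le_ncard h3 hfin
    rw [Set.ncard_union_eq hd (hfin.subset h1) (hfin.subset h2.1)] at h4
    omega
  · rintro ⟨h1, h2⟩
    refine ⟨h1, ?_⟩
    have h3 : r ≤ (N.E \ I).ncard := by
      rw [Set.ncard_sdiff h1 (hfin.subset h1)]
      omega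
    obtain ⟨B, hB, hBr⟩ := Set.exists_subset_card_eq h3
    refine ⟨B, (unif_isBase hn h0 hr h B).2 ⟨hB.trans Set.sdiff_subset, hBr⟩, ?_⟩
    exact Set.disjoint_left.2 fun x hx hx' => (hB hx').2 hx

theorem noLine_dual {q : ℕ} {M : Matroid ℕ} (h : NoColine q M) : NoLine q M.dual := by
  rintro ⟨N, h1, h2, h3⟩
  apply h
  refine ⟨N.dual, ?_, by simpa using h2, ?_⟩
  · have := isMinor_dual h1
    rwa [Matroid.dual_dual] at this
  · intro I
    have := unif_dual h2 (by omega) (by omega) h3 I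
    simpa using this

theorem noColine_dual {q : ℕ} {M : Matroid ℕ} (h : NoLine q M) : NoColine q M.dual := by
  rintro ⟨N, h1, h2, h3⟩
  apply h
  refine ⟨N.dual, ?_, by simpa using h2, ?_⟩
  · have := isMinor_dual h1
    rwa [Matroid.dual_dual] at this
  · intro I
    have := unif_dual h2 (by omega) (by omega) h3 I
    have e : q + 2 - q = 2 := by omega
    rw [e] at this
    exact this

/-- DUG -/
theorem dug : T_DUG := by
  rintro q M ⟨h1, ⟨F, hF⟩, h2, h3⟩
  exact ⟨h1, ⟨F.dual, dur F M hF⟩, noLine_dual h3, noColine_dual h2⟩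

end Pool.Agent.H29.GW
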