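import Pool.Agent.H55.GW.Targets1

/-! # Duality of frames (modules DUR and DUM) -/

set_option autoImplicit false

namespace Pool.Agent.H29.GW

open Pool.Agent.H55.GW

/-- DUR -/
theorem dur : T_DUR := by
  intro F M h
  refine ⟨h.1, fun B => ?_⟩
  have hE : M.E = (F.E : Set ℕ) := h.1
  rw [Matroid.dual_isBase_iff']
  constructor
  · rintro ⟨h1, h2⟩
    obtain ⟨m, h3, h4⟩ := (h.2 _).1 h1
    refine ⟨m, Frame.dual_isPM.2 h3, ?_⟩
    rw [Frame.dual_base, h4, ← hE]
    exact Set.diff_diff_cancel_left h2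
  · rintro ⟨m, h3, h4⟩
    rw [Frame.dual_base] at h4
    subst h4
    rw [hE]
    refine ⟨?_, Set.diff_subset⟩
    rw [Set.diff_diff_cancel_left Frame.base_subset]
    exact (h.2 _).2 ⟨m, Frame.dual_isPM.1 h3, rfl⟩

theorem edges_dual (F : Frame) : F.dual.edges = F.edges := by
  unfold Frame.edges
  have : {p : ℕ × ℕ | F.dual.adj p.1 p.2} = Prod.swap '' {p : ℕ × ℕ | F.adj p.1 p.2} := by
    ext ⟨a, b⟩
    simp only [Set.mem_setOf_eq, Set.mem_image, Prod.exists, Prod.swap_prod_mk, Prod.mk.injEq,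
      Frame.dual_adj]
    constructor
    · intro h
      exact ⟨b, a, h, rfl, rfl⟩
    · rintro ⟨c, d, h, rfl, rfl⟩
      exact h
  rw [this, Set.ncard_image_of_injective _ Prod.swap_injective]

theorem rig_dual {M : Matroid ℕ} {B : Set ℕ} {R : Bool → ℕ → ℕ → Prop} {F : Frame}
    {m : ℕ → Vx} {col : Bool → Set ℕ} (h : Rig M B R F m col) :
    Rig M.dual (M.E \ B) (fun c s t => R c t s) F.dual m col where
  rep := dur F M h.rep
  pm := Frame.dual_isPM.2 h.pm
  base := by rw [Frame.dual_base, h.base, h.rep.1]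
  disj := h.disj
  hold := by
    intro c s t hR
    rw [Frame.dual_rIn h.pm, Set.pair_comm]
    exact h.hold c t s hR

/-- DUM -/
theorem dum : T_DUM := by
  intro M B R F m col h
  refine ⟨rig_dual h.1, ?_⟩
  intro F' m' col' h'
  have h2 := rig_dual h'
  have hB : B ⊆ M.E := by
    rw [← h.1.base, h.1.rep.1]
    exact Frame.base_subset
  have h3 : Rig M B R F'.dual m' col' := by
    have e1 : M.dual.dual = M := M.dual_dual
    have e2 : M.dual.E \ (M.E \ B) = B := by
      rw [Matroid.dual_ground]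
      exact Set.diff_diff_cancel_left hB
    rw [e1, e2] at h2
    exact h2
  have h4 := h.2 F'.dual m' col' h3
  rw [edges_dual] at h4
  rw [edges_dual]
  exact h4

end Pool.Agent.H29.GW
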