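import Pool.Agent.H29.GW.DUR

/-! # Linkages bound the connectivity function from below (module LAML) -/

set_option autoImplicit false

namespace Pool.Agent.H29.GW

open Pool.Agent.H55.GW

theorem ncard_le_rk {M : Matroid ℕ} {I Z : Set ℕ} (hZ : Z.Finite) (hI : M.Indep I)
    (hIZ : I ⊆ Z) : I.ncard ≤ rk M Z := by
  have h1 := hI.encard_le_eRk_of_subset hIZ
  have h2 := M.eRk_le_encard Z
  have h3 : M.eRk Z ≠ ⊤ := by
    intro h
    rw [h, top_le_iff] at h2
    exact hZ.encard_lt_top.ne h2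
  unfold rk
  have h4 : ((I.ncard : ℕ) : ℕ∞) ≤ M.eRk Z := by
    rw [Set.Finite.cast_ncard_eq (hZ.subset hIZ)]
    exact h1
  have h5 : ((M.eRk Z).toNat : ℕ∞) = M.eRk Z := ENat.coe_toNat h3
  rw [← h5] at h4
  exact_mod_cast h4

theorem rk_ground {M : Matroid ℕ} {B : Set ℕ} (hB : M.IsBase B) :
    rk M M.E = B.ncard := by
  unfold rk
  rw [M.eRk_ground, ← hB.encard_eq_eRank]
  rfl

/-- a linkage of `n` walks from `Z \ B` to `B \ Z` -/
theorem link_rk (hLB : T_LB) {F : Frame} {M : Matroid ℕ} {m : ℕ → Vx} (hR : F.Rep M)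
    (hm : F.IsPM m) {Z : Set ℕ} (hZ : Z ⊆ M.E) {n : ℕ} {P Q : Set ℕ}
    (hP : P = Z \ F.base m) (hQ : Q = F.base m \ Z)
    (h : Lnk (F.D m) n (Sum.inl '' P) (Sum.inl '' Q)) :
    (F.base m ∩ Z).ncard + n ≤ rk M Z := by
  obtain ⟨x, y, S, h1, h2⟩ := h
  obtain ⟨hx, hy⟩ := lnk_inj (fun i => (h1 i).2.2) h2
  have hx' : ∀ i, ∃ a ∈ P, Sum.inl a = x i := fun i => (h1 i).1
  have hy' : ∀ i, ∃ b ∈ Q, Sum.inl b = y i := fun i => (h1 i).2.1
  choose a ha ha' using hx'
  choose b hb hb' using hy'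
  have hai : Function.Injective a := fun i j hij => hx (by rw [← ha', ← ha', hij])
  have hbi : Function.Injective b := fun i j hij => hy (by rw [← hb', ← hb', hij])
  have hfinE : (F.E : Set ℕ).Finite := F.E.finite_toSet
  have hZfin : Z.Finite := hfinE.subset (by rw [← hR.1]; exact hZ)
  have hXn : (Set.range a).ncard = n := by
    rw [← Set.image_univ, Set.ncard_image_of_injective _ hai, Set.ncard_univ, Nat.card_eq_fintype_card,
      Fintype.card_fin]
  have hYn : (Set.range b).ncard = n := by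
    rw [← Set.image_univ, Set.ncard_image_of_injective _ hbi, Set.ncard_univ, Nat.card_eq_fintype_card,
      Fintype.card_fin]
  have hXs : Set.range a ⊆ (F.E : Set ℕ) \ F.base m := by
    rintro _ ⟨i, rfl⟩
    have := ha i
    rw [hP] at this
    exact ⟨by rw [← hR.1]; exact hZ this.1, this.2⟩
  have hYs : Set.range b ⊆ F.base m := by
    rintro _ ⟨i, rfl⟩
    have := hb i
    rw [hQ] at this
    exact this.1
  have hL : Lnk (F.D m) (Set.range a).ncard (Sum.inl '' Set.range a)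
      (Sum.inl '' Set.range b) := by
    rw [hXn]
    refine ⟨x, y, S, fun i => ⟨?_, ?_, (h1 i).2.2⟩, h2⟩
    · rw [← ha' i]
      exact Set.mem_image_of_mem _ ⟨i, rfl⟩
    · rw [← hb' i]
      exact Set.mem_image_of_mem _ ⟨i, rfl⟩
  obtain ⟨m', h3, h4⟩ := (hLB F m hm _ _ hXs hYs (by rw [hXn, hYn])).2 hL
  have hB' : M.IsBase (F.base m') := (hR.2 _).2 ⟨m', h3, rfl⟩
  have hsub : (F.base m ∩ Z) ∪ Set.range a ⊆ F.base m' := by
    rw [h4]
    rintro z (⟨hz1, hz2⟩ | hz)
    · refine Or.inl ⟨hz1, ?_⟩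
      rintro ⟨i, rfl⟩
      have := hb i
      rw [hQ] at this
      exact this.2 hz2
    · exact Or.inr hz
  have hI : M.Indep ((F.base m ∩ Z) ∪ Set.range a) := hB'.indep.subset hsub
  have hIZ : (F.base m ∩ Z) ∪ Set.range a ⊆ Z := by
    rintro z (hz | ⟨i, rfl⟩)
    · exact hz.2
    · have := ha i
      rw [hP] at this
      exact this.1
  have h5 := ncard_le_rk hZfin hI hIZ
  rw [Set.ncard_union_eq ?_ (hZfin.subset Set.inter_subset_right) (Set.finite_range a), hXn] at h5
  · exact h5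
  · refine Set.disjoint_left.2 ?_
    rintro z hz ⟨i, rfl⟩
    exact (hXs ⟨i, rfl⟩).2 hz.1

/-- LAML -/
theorem laml (hLB : T_LB) : T_LAML := by
  intro F M m hR hm Z hZ n₁ n₂ h1 h2
  have hB : M.IsBase (F.base m) := (hR.2 _).2 ⟨m, hm, rfl⟩
  have h3 := link_rk hLB hR hm hZ rfl rfl h1
  have h4 := link_rk hLB hR hm (Z := M.E \ Z) Set.sdiff_subset (n := n₂)
    (P := (M.E \ Z) \ F.base m) (Q := F.base m ∩ Z) rfl (by
      ext x
      simp only [Set.mem_inter_iff, Set.mem_sdiff, not_and, not_not]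
      constructor
      · rintro ⟨h5, h6⟩
        exact ⟨h5, fun _ => h6⟩
      · rintro ⟨h5, h6⟩
        exact ⟨h5, h6 (hB.subset_ground h5)⟩) h2
  have hfin : (F.base m).Finite := F.E.finite_toSet.subset Frame.base_subset
  have h5 : (F.base m ∩ Z).ncard + (F.base m ∩ (M.E \ Z)).ncard = (F.base m).ncard := by
    rw [← Set.ncard_union_eq ?_ (hfin.subset Set.inter_subset_left)
      (hfin.subset Set.inter_subset_left)]
    · congr 1
      ext x
      simp only [Set.mem_union, Set.mem_inter_iff, Set.mem_sdiff]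
      constructor
      · rintro (h | h)
        · exact h.1
        · exact h.1
      · intro h
        by_cases hx : x ∈ Z
        · exact Or.inl ⟨h, hx⟩
        · exact Or.inr ⟨h, hB.subset_ground h, hx⟩
    · refine Set.disjoint_left.2 ?_
      rintro z hz hz'
      exact hz'.2.2 hz.2
  unfold lam
  rw [rk_ground hB]
  omega

end Pool.Agent.H29.GW
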