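import Pool.Agent.H29.GW.DUR

/-! # Deletion and contraction in frames (modules MDEL and MCON) -/

set_option autoImplicit false

namespace Pool.Agent.H29.GW

open Pool.Agent.H55.GW

open Classical in
/-- the frame obtained by deleting the real element `e` -/
noncomputable def delF (F : Frame) (e : ℕ) : Frame where
  V := F.V.filter fun v => ¬ (F.isP v ∧ F.att e v)
  E := F.E.erase e
  isP := F.isP
  adj := fun p q => F.adj p q ∧ ¬ (F.isP p ∧ F.att e p) ∧ ¬ (F.isP q ∧ F.att e q)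
  att := fun x w => F.att x w ∧ x ≠ e ∧ ¬ (F.isP w ∧ F.att e w)
  co := fun x => F.co x ∨ ∃ v, F.att x v
  adj_wf := by
    rintro p q ⟨h1, h2, h3⟩
    exact ⟨Finset.mem_filter.2 ⟨Frame.adj_left h1, h2⟩,
      Finset.mem_filter.2 ⟨Frame.adj_right h1, h3⟩, Frame.adj_isP h1, Frame.adj_notP h1⟩
  att_wf := by
    rintro x w ⟨h1, h2, h3⟩
    exact ⟨Finset.mem_erase.2 ⟨h2, Frame.att_E h1⟩, Finset.mem_filter.2 ⟨Frame.att_V h1, h3⟩⟩
  att_uniq := fun x v w h1 h2 => F.att_uniq x v w h1.1 h2.1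

section

variable {F : Frame} {m : ℕ → Vx} {e : ℕ}

theorem delF_mem_V {v : ℕ} : v ∈ (delF F e).V ↔ v ∈ F.V ∧ ¬ (F.isP v ∧ F.att e v) := by
  unfold delF
  simp only [Finset.mem_filter]

theorem mate_of_K (he : e ∉ F.base m) {v : ℕ} (hP : F.isP v) (ha : F.att e v) :
    m v = Sum.inl e := by
  by_contra h
  exact he ((Frame.mem_base_iff ha).2 ⟨fun _ => h, fun _ => hP⟩)

theorem K_of_mate (hm : F.IsPM m) (he : e ∉ F.base m) {v : ℕ} (hv : v ∈ F.V)
    (h : m v = Sum.inl e) : F.isP v ∧ F.att e v := by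
  have ha := (hm v hv).1 e h
  refine ⟨?_, ha⟩
  by_contra hP
  exact he ((Frame.mem_base_iff ha).2 ⟨fun h' => absurd h' hP, fun h' => absurd h h'⟩)

theorem delF_isPM (hm : F.IsPM m) (he : e ∉ F.base m) : (delF F e).IsPM m := by
  intro v hv
  obtain ⟨h1, h2⟩ := delF_mem_V.1 hv
  refine ⟨fun x hx => ?_, fun u hu => ?_⟩
  · refine ⟨(hm v h1).1 x hx, ?_, h2⟩
    rintro rfl
    exact h2 (K_of_mate hm he h1 hx)
  · obtain ⟨h3, h4⟩ := (hm v h1).2 u hu
    have h5 : ¬ (F.isP u ∧ F.att e u) := by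
      rintro ⟨h6, h7⟩
      have := mate_of_K he h6 h7
      rw [h4] at this
      cases this
    refine ⟨?_, h4⟩
    rcases h3 with h3 | h3
    · exact Or.inl ⟨h3, h2, h5⟩
    · exact Or.inr ⟨h3, h5, h2⟩

theorem delF_base (he : e ∉ F.base m) : (delF F e).base m = F.base m := by
  ext x
  by_cases hxe : x = e
  · subst hxe
    constructor
    · intro h
      have : x ∈ (delF F x).E := h.1
      exact absurd this (by unfold delF; simp)
    · intro h
      exact absurd h he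
  by_cases hxE : x ∈ F.E
  · by_cases hx : ∃ v, F.att x v
    · obtain ⟨v, hv⟩ := hx
      by_cases hK : F.isP v ∧ F.att e v
      · have h1 : m v = Sum.inl e := mate_of_K he hK.1 hK.2
        have h2 : x ∈ F.base m := by
          refine (Frame.mem_base_iff hv).2 ⟨fun _ h => hxe ?_, fun _ => hK.1⟩
          rw [h1] at h
          exact (Sum.inl.inj h).symm
        have h3 : ∀ w, ¬ (delF F e).att x w := by
          rintro w ⟨h4, -, h5⟩
          have := F.att_uniq x v w hv h4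
          subst this
          exact h5 hK
        have h4 : x ∈ (delF F e).E := Finset.mem_erase.2 ⟨hxe, hxE⟩
        rw [Frame.mem_base_iff_of_free h4 h3]
        exact ⟨fun _ => h2, fun _ => Or.inr ⟨v, hv⟩⟩
      · have h1 : (delF F e).att x v := ⟨hv, hxe, hK⟩
        rw [Frame.mem_base_iff h1, Frame.mem_base_iff hv]
        exact Iff.rfl
    · push Not at hx
      have h3 : ∀ w, ¬ (delF F e).att x w := fun w h => hx w h.1
      have h4 : x ∈ (delF F e).E := Finset.mem_erase.2 ⟨hxe, hxE⟩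
      rw [Frame.mem_base_iff_of_free h4 h3, Frame.mem_base_iff_of_free hxE hx]
      constructor
      · rintro (h | ⟨v, h⟩)
        · exact h
        · exact absurd h (hx v)
      · exact Or.inl
  · constructor
    · intro h
      have : x ∈ F.E.erase e := h.1
      exact absurd (Finset.mem_of_mem_erase this) hxE
    · intro h
      exact absurd h.1 hxE

open Classical in
/-- extension of a perfect matching of `delF F e` -/
noncomputable def extM (F : Frame) (e : ℕ) (m : ℕ → Vx) : ℕ → Vx := fun v =>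
  if F.isP v ∧ F.att e v then Sum.inl e else m v

theorem extM_K {v : ℕ} (h : F.isP v ∧ F.att e v) : extM F e m v = Sum.inl e := by
  unfold extM
  rw [if_pos h]

theorem extM_nK {v : ℕ} (h : ¬ (F.isP v ∧ F.att e v)) : extM F e m v = m v := by
  unfold extM
  rw [if_neg h]

theorem extM_isPM (hm : (delF F e).IsPM m) : F.IsPM (extM F e m) := by
  intro v hv
  by_cases hK : F.isP v ∧ F.att e v
  · rw [extM_K hK]
    refine ⟨fun x hx => ?_, fun u hu => by cases hu⟩
    cases hx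
    exact hK.2
  · rw [extM_nK hK]
    have hv' : v ∈ (delF F e).V := delF_mem_V.2 ⟨hv, hK⟩
    refine ⟨fun x hx => ((hm v hv').1 x hx).1, fun u hu => ?_⟩
    obtain ⟨h1, h2⟩ := (hm v hv').2 u hu
    have h3 : ¬ (F.isP u ∧ F.att e u) := by
      rcases h1 with h1 | h1
      · exact h1.2.2
      · exact h1.2.1
    rw [extM_nK h3]
    refine ⟨?_, h2⟩
    rcases h1 with h1 | h1
    · exact Or.inl h1.1
    · exact Or.inr h1.1

theorem extM_nmem (hm : (delF F e).IsPM m) (hfree : (∀ v, ¬ F.att e v) → ¬ F.co e) :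
    e ∉ F.base (extM F e m) := by
  by_cases ha : ∃ v, F.att e v
  · obtain ⟨v, hv⟩ := ha
    rw [Frame.mem_base_iff hv]
    intro h
    by_cases hP : F.isP v
    · exact h.1 hP (extM_K ⟨hP, hv⟩)
    · have hK : ¬ (F.isP v ∧ F.att e v) := fun h => hP h.1
      rw [extM_nK hK] at h
      apply hP
      apply h.2
      intro h2
      exact ((hm v (delF_mem_V.2 ⟨Frame.att_V hv, hK⟩)).1 e h2).2.1 rfl
  · push Not at ha
    rintro ⟨-, ⟨v, h, -⟩ | ⟨-, h⟩⟩
    · exact ha v h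
    · exact hfree ha h

theorem delF_base_ext : (delF F e).base (extM F e m) = (delF F e).base m := by
  unfold Frame.base
  ext x
  simp only [Set.mem_ofPred_eq]
  have : ∀ v, (delF F e).att x v → extM F e m v = m v := fun v h => extM_nK h.2.2
  constructor
  · rintro ⟨h1, ⟨v, h2, h3⟩ | h2⟩
    · rw [this v h2] at h3
      exact ⟨h1, Or.inl ⟨v, h2, h3⟩⟩
    · exact ⟨h1, Or.inr h2⟩
  · rintro ⟨h1, ⟨v, h2, h3⟩ | h2⟩
    · rw [← this v h2] at h3
      exact ⟨h1, Or.inl ⟨v, h2, h3⟩⟩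
    · exact ⟨h1, Or.inr h2⟩

theorem delF_rep {M : Matroid ℕ} (hR : F.Rep M) (hm : F.IsPM m) (he : e ∉ F.base m)
    (heE : e ∈ F.E) : (delF F e).Rep (M.delete {e}) := by
  have hbase : M.IsBase (F.base m) := (hR.2 _).2 ⟨m, hm, rfl⟩
  refine ⟨?_, fun B => ?_⟩
  · rw [Matroid.delete_ground, hR.1]
    show _ = ((F.E.erase e : Finset ℕ) : Set ℕ)
    rw [Finset.coe_erase]
  have hco : M.Coindep {e} := by
    rw [Matroid.coindep_iff_exists']
    refine ⟨⟨_, hbase, ?_⟩, ?_⟩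
    · intro x hx
      refine ⟨hbase.subset_ground hx, ?_⟩
      rintro rfl
      exact he hx
    · rintro x rfl
      rw [hR.1]
      exact heE
  rw [hco.delete_isBase_iff]
  constructor
  · rintro ⟨h1, h2⟩
    obtain ⟨m1, h3, rfl⟩ := (hR.2 _).1 h1
    have h4 : e ∉ F.base m1 := Set.disjoint_singleton_right.1 h2
    exact ⟨m1, delF_isPM h3 h4, delF_base h4⟩
  · rintro ⟨m2, h3, rfl⟩
    have hfree : (∀ v, ¬ F.att e v) → ¬ F.co e := fun h5 h6 =>
      he ((Frame.mem_base_iff_of_free heE h5).2 h6)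
    have h4 := extM_nmem h3 hfree
    have h5 := delF_base h4
    rw [delF_base_ext] at h5
    rw [h5]
    exact ⟨(hR.2 _).2 ⟨_, extM_isPM h3, rfl⟩, Set.disjoint_singleton_right.2 h4⟩

theorem delF_D (hm : F.IsPM m) (he : e ∉ F.base m) (x y : Vx) : (delF F e).D m x y ↔
    (F.D m x y ∧ x ≠ Sum.inl e ∧
      y ≠ Sum.inl e ∧ ∀ v ∈ F.V, m v = Sum.inl e → x ≠ Sum.inr v ∧ y ≠ Sum.inr v) := by
  have hb := delF_base he
  have key : ∀ u : ℕ, (¬ (F.isP u ∧ F.att e u)) ↔
      (∀ v ∈ F.V, m v = Sum.inl e → (Sum.inr u : Vx) ≠ Sum.inr v) := by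
    intro u
    constructor
    · rintro h v hv h1 h2
      cases h2
      exact h (K_of_mate hm he hv h1)
    · rintro h ⟨h1, h2⟩
      exact h u (Frame.att_V h2) (mate_of_K he h1 h2) rfl
  rcases x with x | u <;> rcases y with y | v
  · simp [Frame.D]
  · constructor
    · rintro ⟨⟨h1, h2, h3⟩, h4⟩
      rw [hb] at h4
      refine ⟨⟨h1, h4⟩, fun h => h2 (Sum.inl.inj h), by simp, fun w hw h5 => ⟨by simp, ?_⟩⟩
      exact (key v).1 h3 w hw h5
    · rintro ⟨⟨h1, h2⟩, h3, -, h4⟩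
      refine ⟨⟨h1, fun h => h3 (by rw [h]), (key v).2 fun w hw h5 => (h4 w hw h5).2⟩, ?_⟩
      rw [hb]
      exact h2
  · constructor
    · rintro ⟨⟨h1, h2, h3⟩, h4⟩
      rw [hb] at h4
      refine ⟨⟨h1, h4⟩, by simp, fun h => h2 (Sum.inl.inj h), fun w hw h5 => ⟨?_, by simp⟩⟩
      exact (key u).1 h3 w hw h5
    · rintro ⟨⟨h1, h2⟩, -, h3, h4⟩
      refine ⟨⟨h1, fun h => h3 (by rw [h]), (key u).2 fun w hw h5 => (h4 w hw h5).1⟩, ?_⟩
      rw [hb]
      exact h2
  · constructor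
    · rintro (⟨⟨h1, h2, h3⟩, h4⟩ | ⟨⟨h1, h2, h3⟩, h4⟩)
      · exact ⟨Or.inl ⟨h1, h4⟩, by simp, by simp, fun w hw h5 =>
          ⟨(key u).1 h2 w hw h5, (key v).1 h3 w hw h5⟩⟩
      · exact ⟨Or.inr ⟨h1, h4⟩, by simp, by simp, fun w hw h5 =>
          ⟨(key u).1 h3 w hw h5, (key v).1 h2 w hw h5⟩⟩
    · rintro ⟨h1, -, -, h4⟩
      have hu := (key u).2 fun w hw h5 => (h4 w hw h5).1
      have hv := (key v).2 fun w hw h5 => (h4 w hw h5).2
      rcases h1 with ⟨h1, h2⟩ | ⟨h1, h2⟩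
      · exact Or.inl ⟨⟨h1, hu, hv⟩, h2⟩
      · exact Or.inr ⟨⟨h1, hv, hu⟩, h2⟩

end

/-- MDEL -/
theorem mdel : T_MDEL := by
  intro F M m e hR hm heE he
  exact ⟨delF F e, delF_rep hR hm he heE, delF_isPM hm he, delF_base he,
    fun v hv => (delF_mem_V.1 hv).1, delF_D hm he⟩

/-- MCON -/
theorem mcon : T_MCON := by
  intro F M m e hR hm he
  have heE : e ∈ F.E := he.1
  have he' : e ∉ F.dual.base m := by
    rw [Frame.dual_base]
    exact fun h => h.2 he
  have hRd := dur F M hR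
  have hmd : F.dual.IsPM m := Frame.dual_isPM.2 hm
  obtain ⟨F1, h1, h2, h3, h4, h5⟩ := mdel F.dual M.dual m e hRd hmd heE he'
  have h6 : F1.dual.Rep (M.contract {e}) := by
    have := dur F1 _ h1
    rwa [Matroid.dual_delete_dual] at this
  refine ⟨F1.dual, h6, Frame.dual_isPM.2 h2, ?_, h4, ?_⟩
  · rw [Frame.dual_base, h3, Frame.dual_base]
    have e1 : ((F1.E : Finset ℕ) : Set ℕ) = (F.E : Set ℕ) \ {e} := by
      have := h1.1
      rw [Matroid.delete_ground, Matroid.dual_ground, hR.1] at this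
      exact this.symm
    rw [e1]
    ext x
    simp only [Set.mem_sdiff, Set.mem_singleton_iff, not_and, not_not, Finset.mem_coe]
    constructor
    · rintro ⟨⟨h7, h8⟩, h9⟩
      exact ⟨h9 h7, h8⟩
    · rintro ⟨h7, h8⟩
      exact ⟨⟨h7.1, h8⟩, fun _ => h7⟩
  · intro x y
    rw [Frame.dual_D h2, h5 y x, Frame.dual_D hm]
    constructor
    · rintro ⟨h7, h8, h9, h10⟩
      exact ⟨h7, h9, h8, fun v hv h11 => (h10 v hv h11).symm⟩
    · rintro ⟨h7, h8, h9, h10⟩
      exact ⟨h7, h9, h8, fun v hv h11 => (h10 v hv h11).symm⟩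

end Pool.Agent.H29.GW
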