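import Pool.Agent.H29.GW.DUR

/-! # Frames with the same linkages (module REP) -/

set_option autoImplicit false

namespace Pool.Agent.H29.GW

open Pool.Agent.H55.GW

theorem rep_aux (hLB : T_LB) (hLBC : T_LBC) {F F' : Frame} {m m' m₁ : ℕ → Vx}
    (hm : F.IsPM m) (hm' : F'.IsPM m') (hE : F'.E = F.E) (hb : F'.base m' = F.base m)
    (h : ∀ (n : ℕ) (X Y : Set ℕ), X ⊆ (F.E : Set ℕ) \ F.base m → Y ⊆ F.base m → X.ncard = n →
      Y.ncard = n → Lnk (F.D m) n (Sum.inl '' X) (Sum.inl '' Y) →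
        Lnk (F'.D m') n (Sum.inl '' X) (Sum.inl '' Y)) (h1 : F.IsPM m₁) :
    ∃ m₁', F'.IsPM m₁' ∧ F'.base m₁' = F.base m₁ := by
  obtain ⟨n, h2, h3, h4⟩ := hLBC F m m₁ hm h1
  have hX : F.base m₁ \ F.base m ⊆ (F.E : Set ℕ) \ F.base m := fun x hx =>
    ⟨Frame.base_subset hx.1, hx.2⟩
  have hY : F.base m \ F.base m₁ ⊆ F.base m := Set.sdiff_subset
  have h5 := h n _ _ hX hY h2 h3 h4
  have h6 := hLB F' m' hm' (F.base m₁ \ F.base m) (F.base m \ F.base m₁)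
    (by rw [hE, hb]; exact hX) (by rw [hb]; exact hY) (by rw [h2, h3])
  rw [h2] at h6
  obtain ⟨m₁', h7, h8⟩ := h6.2 h5
  refine ⟨m₁', h7, ?_⟩
  rw [h8, hb]
  ext x
  simp only [Set.mem_union, Set.mem_sdiff]
  tauto

/-- REP -/
theorem rep (hLB : T_LB) (hLBC : T_LBC) : T_REP := by
  intro F F' m m' M hR hm hm' hE hb h
  refine ⟨by rw [hR.1, hE], fun B => ?_⟩
  rw [hR.2]
  constructor
  · rintro ⟨m₁, h1, rfl⟩
    exact rep_aux hLB hLBC hm hm' hE hb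
      (fun n X Y hX hY h2 h3 h4 => (h n X Y hX hY h2 h3).1 h4) h1
  · rintro ⟨m₁, h1, rfl⟩
    exact rep_aux hLB hLBC hm' hm hE.symm hb.symm
      (fun n X Y hX hY h2 h3 h4 => (h n X Y (by rw [← hE, ← hb]; exact hX)
        (by rw [← hb]; exact hY) h2 h3).2 h4) h1

end Pool.Agent.H29.GW
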